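import Pool.Agent.MP_86c931_ag.H56.RowsD

/-! Poisson homology in degree zero of the singular variety, and finite generation. -/

namespace Pool.Agent.MP_86c931_ag.H50

open MvPolynomial Pool.Agent.MP_86c931_ag.H56

/-- invariant polynomials as invariants of the localization -/
noncomputable def inc : Pb →ₐ[ℂ] Pab :=
  (iF.comp Pb.val).codRestrict Pab fun p => ⟨iF_mem_PI _ _, iF_mem_Inv.2 p.2⟩

lemma inc_coe (p : Pb) : (inc p : F) = iF p := rfl

/-- the class of an invariant polynomial -/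
noncomputable def clR : Pb →ₐ[ℂ] R0 :=
  (mkO.comp inc).codRestrict (OI ∅) fun p => ⟨inc p, ⟨iF_mem_PI _ _, iF_mem_Inv.2 p.2⟩, rfl⟩

lemma clR_coe (p : Pb) : (clR p : O) = mkO (inc p) := rfl

lemma clR_surj : Function.Surjective clR := by
  rintro ⟨_, p, hp, rfl⟩
  obtain ⟨n, hn⟩ := mem_PI_empty.1 hp.1
  refine ⟨⟨n, iF_mem_Inv.1 (hn ▸ hp.2)⟩, Subtype.ext ?_⟩
  rw [clR_coe]
  exact congrArg mkO (Subtype.ext hn)

lemma clR_eq_zero {p : Pb} : clR p = 0 ↔ iF p ∈ JF := by
  rw [← Subtype.val_inj, clR_coe]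
  exact mkO_eq_zero

lemma brP_mem {p q : P} (hp : p ∈ Pb) (hq : q ∈ Pb) : brP p q ∈ Pb := by
  rw [← iF_mem_Inv, ← brF_iF]
  exact brF_mem_Inv (iF_mem_Inv.2 hp) (iF_mem_Inv.2 hq)

lemma brb_inc (p q : Pb) : brb (inc p) (inc q) = inc ⟨brP p q, brP_mem p.2 q.2⟩ :=
  Subtype.ext (brF_iF _ _)

lemma brR_clR (p q : Pb) : brR (clR p) (clR q) = clR ⟨brP p q, brP_mem p.2 q.2⟩ := by
  apply Subtype.ext
  rw [brR_coe, clR_coe, clR_coe, clR_coe, brO_mkO, brb_inc]

lemma dot_mem_Inv {v w : Fin 3 → F} (hv : IsVec v) (hw : IsVec w) : dot v w ∈ H56.Inv := by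
  obtain ⟨a1, a2, a3, a4, a5, a6⟩ := hv
  obtain ⟨b1, b2, b3, b4, b5, b6⟩ := hw
  rw [mem_Inv, dot]
  simp only [map_add, Derivation.leibniz, smul_eq_mul, a1, a2, a3, a4, a5, a6, b1, b2, b3, b4, b5,
    b6]
  constructor <;> ring

lemma iF_AP (k l : K6) : iF (AP k l) = dot (fun α => zF α k) fun α => zF α l := by
  simp only [AP, dot, map_add, map_mul, zF]

lemma AP_mem (k l : K6) : AP k l ∈ Pb := by
  rw [← iF_mem_Inv, iF_AP]
  exact dot_mem_Inv (isVec_z k) (isVec_z l)

/-! ### evaluations -/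

lemma kill_JP (φ : P →ₐ[ℂ] ℂ) (h1 : φ HeP = 0) (h2 : φ HhP = 0) {p : P} (hp : p ∈ JP) :
    φ p = 0 := by
  obtain ⟨a, b, rfl⟩ := Ideal.mem_span_pair.1 hp
  rw [map_add, map_mul, map_mul, h1, h2, mul_zero, mul_zero, add_zero]

lemma cc_JP {p : P} (hp : p ∈ JP) : constantCoeff p = 0 := by
  have := kill_JP (aeval fun _ => 0) (by rw [HeP, map_om]; simp [zP, om])
    (by rw [HhP, map_om]; simp [zP, om]) hp
  simpa using this

/-- a point of the zero fibre where the lowering Hamiltonian does not vanish -/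
def pt (s : S18) : ℂ :=
  (![1, if s.2.2 then (![1, -1, 0] : Fin 3 → ℂ) s.2.1 else 0,
    if s.2.2 then 0 else (![1, -1, 0] : Fin 3 → ℂ) s.2.1] : Fin 3 → ℂ) s.1

lemma xHf_not_mem (k : K6) : zP 0 k * HfP ∉ JP := fun h => by
  have := kill_JP (aeval pt)
    (by
      rw [HeP, map_om]
      simp [zP, om, pt, Fintype.sum_prod_type, Fin.sum_univ_three, K6.sgn, K6.dual])
    (by
      rw [HhP, map_om]
      simp [zP, om, pt, Fintype.sum_prod_type, Fin.sum_univ_three, K6.sgn, K6.dual]) h
  rw [map_mul, HfP, map_om] at this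
  simp [zP, om, pt, Fintype.sum_prod_type, Fin.sum_univ_three, K6.sgn, K6.dual] at this

lemma om_bc (k : K6) : om (fun l => zt k (1, l)) (fun l => zt k (2, l)) =
    zF 0 k * Hf + ((-(zF 0 k * (sl k ^ 2 / 2))) * He + (-(zF 0 k * sl k)) * Hh) := by
  have h2' := two_ne_zero_F
  have e1 : (fun l => zt k (1, l)) = fun l => zF 1 l + (-sl k) * zF 0 l :=
    funext fun l => by rw [zt_1]; ring
  have e2 : (fun l => zt k (2, l)) =
      fun l => zF 0 k * (zF 2 l + (sl k * zF 1 l + (-(sl k ^ 2 / 2)) * zF 0 l)) :=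
    funext fun l => by rw [zt_2]; ring
  rw [e1, e2]
  simp only [om_mul_right, om_add_right, om_add_left, om_mul_left, om_self]
  rw [om_anti (zF 1) (zF 0), ← He_eq, ← Hh_eq, ← Hf_eq]
  field_simp
  ring

/-! ### derivations that kill the quadratic invariants -/

lemma der_zero {T : Type} [CommRing T] [Algebra ℂ T] [IsDomain T] (D : Derivation ℂ T T)
    (a b c : K6 → T) (k : K6) (hab : om a b = 0) (hac : om a c = 0) (hbc : om b c ≠ 0)
    (ha : a k = 1) (hb : b k = 0) (hD : ∀ l m, D (a l * c m + b l * b m + c l * a m) = 0) :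
    ∀ l, D (a l) = 0 ∧ D (b l) = 0 ∧ D (c l) = 0 := by
  set h := om b c with hh
  have two : ∀ x : T, 2 * x = 0 → x = 0 := fun x hx => by
    have h2 : (2 : ℂ) • x = 0 := by rw [two_smul, ← two_mul, hx]
    have := congrArg (fun z => (2 : ℂ)⁻¹ • z) h2
    simpa [smul_smul] using this
  have hba : om b a = 0 := by rw [om_anti, hab, neg_zero]
  have hca : om c a = 0 := by rw [om_anti, hac, neg_zero]
  have hcb : om c b = -h := om_anti _ _
  have e1 : ∀ m, (fun l => a l * c m + b l * b m + c l * a m) =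
      fun l => c m * a l + (b m * b l + a m * c l) := fun m => funext fun l => by ring
  have e2 : ∀ j, (fun l => a j * c l + b j * b l + c j * a l) =
      fun l => a j * c l + (b j * b l + c j * a l) := fun j => funext fun l => by ring
  -- two factors
  have h2 : ∀ j m, om (fun l => a j * c l + b j * b l + c j * a l)
      (fun l => a l * c m + b l * b m + c l * a m) = h * (b j * a m - a j * b m) := fun j m => by
    rw [e1, e2]
    simp only [om_mul_right, om_add_right, om_add_left, om_mul_left, om_self, hab, hac, hba, hca,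
      hcb, ← hh]
    ring
  have d2 : ∀ j m, D (h * (b j * a m - a j * b m)) = 0 := fun j m => by
    rw [← h2, der_om]
    simp only [hD, om_zero_left, om_zero_right, add_zero]
  -- three factors
  have h3 : ∀ n, om (fun m => h * (b k * a m - a k * b m))
      (fun l => a l * c n + b l * b n + c l * a n) = -(h * h * a n) := fun n => by
    have e3 : (fun m => h * (b k * a m - a k * b m)) = fun m => (-h) * b m :=
      funext fun m => by rw [ha, hb]; ring
    rw [e1, e3]
    simp only [om_mul_right, om_add_right, om_mul_left, om_self, hba, ← hh]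
    ring
  have d3 : ∀ n, D (h * h * a n) = 0 := fun n => by
    rw [← neg_eq_zero, ← map_neg, ← h3, der_om]
    simp only [hD, d2, om_zero_left, om_zero_right, add_zero]
  have dh : D h = 0 := by
    have := d3 k
    rw [ha, mul_one, D.leibniz, smul_eq_mul, ← two_mul] at this
    exact (mul_eq_zero.1 (two _ this)).resolve_left hbc
  have da : ∀ n, D (a n) = 0 := fun n => by
    have := d3 n
    simp only [D.leibniz, dh, smul_eq_mul, mul_zero, add_zero] at this
    exact (mul_eq_zero.1 this).resolve_left (mul_ne_zero hbc hbc)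
  have db : ∀ n, D (b n) = 0 := fun n => by
    have := d2 k n
    rw [ha, hb, zero_mul, one_mul, zero_sub, D.leibniz, dh, map_neg, smul_zero, add_zero,
      smul_eq_mul] at this
    exact neg_eq_zero.1 ((mul_eq_zero.1 this).resolve_left hbc)
  have dk : D (c k) = 0 := by
    have := hD k k
    rw [ha, hb, one_mul, mul_one, mul_zero, add_zero, map_add, ← two_mul] at this
    exact two _ this
  refine fun l => ⟨da l, db l, ?_⟩
  have := hD k l
  rwa [ha, hb, one_mul, zero_mul, add_zero, map_add, D.leibniz, da, dk, smul_zero, smul_zero,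
    add_zero, add_zero] at this

lemma om_coe (u v : K6 → Pab) : ((om u v : Pab) : F) = om (fun l => (u l : F)) fun l => (v l : F) :=
  map_om Pab.val u v

lemma const (hJ : ∀ p : P, iF p ∈ JF → p ∈ JP) [IsDomain O]
    (h0 : ∀ (k : K6) (f : O), (∀ s : Sk k, brO f (mkO (ztb k s.1)) = 0) →
      ∃ r : ℂ, f = algebraMap ℂ O r) (v : P) (hv : v ∈ Pb) (h : ∀ k l, brP (AP k l) v = 0) :
    iF (v - C (constantCoeff v)) ∈ JF := by
  let k : K6 := (0, true)
  have key := der_zero (brO_poisson.ad (mkO (inc ⟨v, hv⟩))) (fun l => mkO (ztb k (0, l)))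
    (fun l => mkO (ztb k (1, l))) (fun l => mkO (ztb k (2, l))) k
    (by
      rw [← map_om, mkO_eq_zero, om_coe]
      exact om_ab k ▸ JeF_le (Ek_mem_JeF k))
    (by
      rw [← map_om, mkO_eq_zero, om_coe]
      exact om_ac k ▸ Hk_mem_JF k)
    (by
      rw [← map_om, Ne, mkO_eq_zero, om_coe]
      intro h1
      apply xHf_not_mem k
      apply hJ
      have h2 : om (fun l => zt k (1, l)) (fun l => zt k (2, l)) ∈ JF := h1
      have hs := sl_mem (Finset.mem_univ k)
      have hx := zF_mem_PI Finset.univ 0 k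
      rw [om_bc] at h2
      rw [map_mul]
      exact (JF.add_mem_iff_left ⟨_, Pa.neg_mem (Pa.mul_mem hx (half_mem _ (Pa.pow_mem hs 2))), _,
        Pa.neg_mem (Pa.mul_mem hx hs), rfl⟩).1 h2)
    (by rw [show ztb k (0, k) = 1 from Subtype.ext (zt_0_self k), map_one])
    (by rw [show ztb k (1, k) = 0 from Subtype.ext (zt_1_self k), map_zero])
    (fun l m => by
      have e : ztb k (0, l) * ztb k (2, m) + ztb k (1, l) * ztb k (1, m) +
          ztb k (2, l) * ztb k (0, m) = inc ⟨AP l m, AP_mem l m⟩ := by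
        apply Subtype.ext
        rw [inc_coe, iF_AP, ← dot_inv3 k]
        rfl
      rw [← map_mul, ← map_mul, ← map_mul, ← map_add, ← map_add, e, IsPoisson.ad_apply,
        brO_poisson.anti, brO_mkO, brb_inc, neg_eq_zero, mkO_eq_zero, inc_coe]
      simp only [h, map_zero]
      exact JF.zero_mem)
  obtain ⟨r, hr⟩ := h0 k (mkO (inc ⟨v, hv⟩)) fun s => by
    obtain ⟨⟨α, l⟩, hs⟩ := s
    rw [← brO_poisson.ad_apply]
    have e : ∀ α : Fin 3, α = 0 ∨ α = 1 ∨ α = 2 := by decide
    rcases e α with rfl | rfl | rfl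
    exacts [(key l).1, (key l).2.1, (key l).2.2]
  have h1 : iF (v - C r) ∈ JF := by
    rw [← mkO.commutes, mkO_eq] at hr
    rw [map_sub]
    exact (iF.commutes r).symm ▸ hr
  have h2 := cc_JP (hJ _ h1)
  rw [map_sub, constantCoeff_C, sub_eq_zero] at h2
  rwa [h2]

lemma cc_brP (h3 : ∀ p ∈ Pb, ∀ s, constantCoeff (pderiv s p) = 0) {p : P} (hp : p ∈ Pb) (q : P) :
    constantCoeff (brP p q) = 0 := by
  rw [brP, brk, map_sum]
  exact Finset.sum_eq_zero fun s _ => by
    rw [constantCoeff_smul, map_mul, h3 p hp, zero_mul, smul_zero]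

theorem rowHP : RowFIS → RowINV → RowHP := by
  intro hF hI hJ hO h0
  have main : ∀ f : R0, ∃ (c : ℂ) (g : K6 × K6 → R0),
      f = algebraMap ℂ R0 c + ∑ i, brR (clR ⟨AP i.1 i.2, AP_mem _ _⟩) (g i) := fun f => by
    obtain ⟨p, rfl⟩ := clR_surj f
    obtain ⟨g, hg, h1⟩ := hF.2.2.2 (JF.comap iF.toLinearMap)
      (fun v hv h => const hJ h0 v hv h) p p.2
    refine ⟨constantCoeff p.1, fun i => clR ⟨g i.1 i.2, hg _ _⟩, ?_⟩
    simp only [brR_clR]
    rw [← map_sum, ← clR.commutes, ← map_add, ← sub_eq_zero, ← map_sub, clR_eq_zero]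
    rw [Subalgebra.coe_sub, Subalgebra.coe_add, AddSubmonoidClass.coe_finsetSum,
      Fintype.sum_prod_type, ← sub_sub]
    exact h1
  refine ⟨?_, ⟨_, main⟩, ?_⟩
  · refine _root_.finrank_eq_one ((brackets brR).mkQ 1) (fun h => ?_) fun w => ?_
    · rw [Submodule.mkQ_apply, Submodule.Quotient.mk_eq_zero] at h
      have hle : brackets brR ≤ (LinearMap.ker ((aeval fun _ => (0 : ℂ)).toLinearMap ∘ₗ
          Pb.val.toLinearMap)).map clR.toLinearMap := by
        refine Submodule.span_le.2 ?_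
        rintro _ ⟨f, g, rfl⟩
        obtain ⟨p, rfl⟩ := clR_surj f
        obtain ⟨q, rfl⟩ := clR_surj g
        refine ⟨_, ?_, (brR_clR p q).symm⟩
        simpa using cc_brP hI.2.2 p.2 q
      obtain ⟨p, hp, h1⟩ := hle h
      have h2 : clR (1 - p) = 0 := by
        rw [map_sub, map_one, sub_eq_zero]; exact h1.symm
      have h3 := cc_JP (hJ _ (clR_eq_zero.1 h2))
      have h4 : constantCoeff p.1 = 0 := by simpa using hp
      simp [h4] at h3
    · obtain ⟨f, rfl⟩ := (brackets brR).mkQ_surjective w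
      obtain ⟨c, g, rfl⟩ := main f
      refine ⟨c, ?_⟩
      rw [← map_smul, ← Algebra.algebraMap_eq_smul_one, map_add, left_eq_add, Submodule.mkQ_apply,
        Submodule.Quotient.mk_eq_zero]
      exact Submodule.sum_mem _ fun i _ => Submodule.subset_span ⟨_, _, rfl⟩
  · have : Algebra.FiniteType ℂ Pb :=
      (Subalgebra.fg_iff_finiteType _).1 (hI.2.1 hF.2.1 hF.2.2.1)
    exact Algebra.FiniteType.of_surjective clR clR_surj

end Pool.Agent.MP_86c931_ag.H50
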